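import Pool.Agent.W_448so_h64.SoF
import Pool.Agent.W_448win_h16.EtD

/-!
SECOND ORDER THEOREM (MP_448cb3_co, proofs row 476): data of explicit configurations, one-sided and abstract, and
the coefficient of a configuration from its data (helper15, for W_448so_h64/SoI).
-/

namespace Pool.Agent.GaussPoset.Win.SO

set_option linter.unusedSectionVars false

open Finset
open Pool.Agent.GaussPoset.Win.I2 (kd gu kl kn kr so cc fr KK KD mem_kn mem_kr mem_so kd_iff kl_iff
  lS uS mem_lS mem_uS kd_dc kd_uc gu_uc gu_dc adm_low adm_up KD_low KD_up fr_low fr_up)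

universe u

section abs

variable {P : Type u} [DecidableEq P] {c c' : P → Finset P} {e : P → ℕ} {t : P → ℕ}
  {V Sd : Finset P}

/-- data of one side -/
structure ODat (c c' : P → Finset P) (V Sd : Finset P) (e : P → ℕ) (a p : ℕ) (B : Finset P) :
    Prop where
  adm : ∀ z ∈ Sd, ¬ (kd c' e z ∧ gu c e z)
  ka : (KD c' e Sd).card = a
  fp : (fr c c' e Sd).card = p
  vb : KD c' e V = B

/-- a side without excited elements -/
lemma odat_zero (S : Sde c c' t V Sd) (h : ∀ z ∈ Sd, e z = 0) : ODat c c' V Sd e 0 0 ∅ := by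
  classical
  have hk : ∀ a, (a ∈ Sd ∨ a ∈ V) → ¬ kd c' e a := by
    rintro a ha ⟨z, hz, hlt⟩
    have := h z (S.cout a ha z hz)
    omega
  refine ⟨fun z hz h1 => hk z (Or.inl hz) h1.1, ?_, ?_, ?_⟩
  · rw [card_eq_zero]
    unfold KD
    rw [filter_eq_empty_iff]
    exact fun z hz => hk z (Or.inl hz)
  · rw [card_eq_zero]
    unfold fr
    rw [filter_eq_empty_iff]
    rintro z hz ⟨-, h2⟩
    obtain ⟨a, ha⟩ := S.ne z hz
    exact h2 ⟨a, ha, by rw [h z hz]; exact Nat.zero_le _⟩
  · unfold KD
    rw [filter_eq_empty_iff]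
    exact fun z hz => hk z (Or.inr hz)

/-- label one on a set closed towards the window -/
lemma odat_on (S : Sde c c' t V Sd) {s : Finset P} (he : On e s)
    (hs : ∀ x ∈ s, x ∈ Sd → 1 < t x → c x ⊆ s) {F B : Finset P}
    (hF : ∀ x, x ∈ F ↔ x ∈ Sd ∧ x ∈ s ∧ ∀ a ∈ c x, a ∉ s)
    (hB : ∀ v, v ∈ B ↔ v ∈ V ∧ v ∉ s ∧ ∃ x ∈ s, v ∈ c x) :
    ODat c c' V Sd e 0 F.card B := by
  classical
  have hk : ∀ a ∈ Sd, ¬ kd c' e a := by
    rintro a ha ⟨z, hz, hlt⟩
    rw [he a, he z] at hlt
    split_ifs at hlt with h1 h2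
    · omega
    · omega
    · have hzS := S.cout a (Or.inl ha) z hz
      have hac := (S.dual z a).2 hz
      have h3 := (S.cin z hzS a hac).2
      have h4 := S.tS a ha
      rename_i h5
      exact h1 (hs z h5 hzS (by omega) hac)
    · omega
  refine ⟨fun z hz h1 => hk z hz h1.1, ?_, ?_, ?_⟩
  · rw [card_eq_zero]
    unfold KD
    rw [filter_eq_empty_iff]
    exact fun z hz => hk z hz
  · congr 1
    ext x
    unfold fr
    rw [mem_filter, hF x]
    constructor
    · rintro ⟨hx, -, h2⟩
      have hxs : x ∈ s := by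
        by_contra h3
        obtain ⟨a, ha⟩ := S.ne x hx
        exact h2 ⟨a, ha, by rw [he x, if_neg h3]; exact Nat.zero_le _⟩
      refine ⟨hx, hxs, fun a ha has => h2 ⟨a, ha, ?_⟩⟩
      rw [he x, he a, if_pos hxs, if_pos has]
    · rintro ⟨hx, hxs, h2⟩
      refine ⟨hx, hk x hx, ?_⟩
      rintro ⟨a, ha, hle⟩
      rw [he x, he a, if_pos hxs, if_neg (h2 a ha)] at hle
      omega
  · ext v
    unfold KD
    rw [mem_filter, hB v]
    constructor
    · rintro ⟨hv, z, hz, hlt⟩
      rw [he v, he z] at hlt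
      split_ifs at hlt with h1 h2 h2
      · omega
      · omega
      · exact ⟨hv, h1, z, h2, (S.dual z v).2 hz⟩
      · omega
    · rintro ⟨hv, h1, x, hx, hvx⟩
      refine ⟨hv, x, (S.dual x v).1 hvx, ?_⟩
      rw [he v, he x, if_neg h1, if_pos hx]
      exact one_pos

lemma TD.ttx (S : Sde c c' t V Sd) {w x x' s : P} (T : TD c t Sd w x x' s) :
    x ∈ Sd ∧ t x = 1 ∧ x' ∈ Sd ∧ t x' = 1 ∧ ∀ v, v ∈ c x ∨ v ∈ c x' → v ∈ V := by
  have h1 := S.cin w T.m x (by rw [T.cw]; simp)
  have h2 := S.cin w T.m x' (by rw [T.cw]; simp)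
  have h3 := T.tw
  have hx : x ∈ Sd := by
    rcases h1.1 with h | h
    · exact h
    · have := S.tV x h
      omega
  have hx' : x' ∈ Sd := by
    rcases h2.1 with h | h
    · exact h
    · have := S.tV x' h
      omega
  refine ⟨hx, by omega, hx', by omega, ?_⟩
  rintro v (hv | hv)
  · obtain ⟨h4 | h4, h5⟩ := S.cin x hx v hv
    · have := S.tS v h4
      omega
    · exact h4
  · obtain ⟨h4 | h4, h5⟩ := S.cin x' hx' v hv
    · have := S.tS v h4
      omega
    · exact h4

lemma TD.three {w x x' s : P} (T : TD c t Sd w x x' s) : (c x ∪ c x').card = 3 := by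
  have h1 : c x ∩ c x' = {s} := by
    ext v
    rw [mem_inter, mem_singleton]
    exact ⟨fun h => T.only v h.1 h.2, fun h => h ▸ ⟨T.sx, T.sx'⟩⟩
  have h2 := card_union_add_card_inter (c x) (c x')
  rw [h1, T.cx, T.cx', card_singleton] at h2
  omega

/-- the T element with label two over two elements with label one -/
lemma odat_two (S : Sde c c' t V Sd) {w x x' s : P} (T : TD c t Sd w x x' s) (hw : e w = 2)
    (hx : e x = 1) (hx' : e x' = 1)
    (h : ∀ y, y ≠ w → y ≠ x → y ≠ x' → e y ≠ 0 → y ∈ Sd ∧ ∀ b ∈ c y, e y ≤ e b) :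
    ODat c c' V Sd e 2 1 (c x ∪ c x') := by
  classical
  obtain ⟨g1, g2, g3, g4, g5⟩ := T.ttx S
  have hwx : w ≠ x := fun h' => by have := T.tw; rw [h'] at this; omega
  have hwx' : w ≠ x' := fun h' => by have := T.tw; rw [h'] at this; omega
  have hV0 : ∀ v ∈ V, e v = 0 := by
    intro v hv
    by_contra hne
    have h1 := S.tV v hv
    have h2 : v ≠ w := fun h' => by have := T.tw; rw [← h'] at this; omega
    have h3 : v ≠ x := fun h' => by rw [← h'] at g2; omega
    have h4 : v ≠ x' := fun h' => by rw [← h'] at g4; omega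
    have h5 := S.tS v (h v h2 h3 h4 hne).1
    omega
  have key : ∀ a, (a ∈ Sd ∨ a ∈ V) → (kd c' e a ↔ a = x ∨ a = x' ∨ a ∈ c x ∨ a ∈ c x') := by
    intro a ha
    constructor
    · rintro ⟨z, hz, hlt⟩
      have hac := (S.dual z a).2 hz
      by_cases h1 : z = w
      · rw [h1, T.cw, mem_insert, mem_singleton] at hac
        tauto
      · by_cases h2 : z = x
        · rw [h2] at hac
          tauto
        · by_cases h3 : z = x'
          · rw [h3] at hac
            tauto
          · have := (h z h1 h2 h3 (by omega)).2 a hac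
            omega
    · rintro (h1 | h1 | h1 | h1)
      · subst h1
        exact ⟨w, (S.dual w a).1 (by rw [T.cw]; simp), by omega⟩
      · subst h1
        exact ⟨w, (S.dual w a).1 (by rw [T.cw]; simp), by omega⟩
      · exact ⟨x, (S.dual x a).1 h1, by rw [hV0 a (g5 a (Or.inl h1))]; omega⟩
      · exact ⟨x', (S.dual x' a).1 h1, by rw [hV0 a (g5 a (Or.inr h1))]; omega⟩
  have keyS : ∀ a ∈ Sd, (kd c' e a ↔ a = x ∨ a = x') := by
    intro a ha
    rw [key a (Or.inl ha)]
    constructor
    · rintro (h1 | h1 | h1 | h1)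
      · exact Or.inl h1
      · exact Or.inr h1
      · have := S.tV a (g5 a (Or.inl h1))
        have := S.tS a ha
        omega
      · have := S.tV a (g5 a (Or.inr h1))
        have := S.tS a ha
        omega
    · tauto
  have hgu : ∀ a ∈ Sd, (gu c e a ↔ a ≠ x ∧ a ≠ x' ∧ a ≠ w) := by
    intro a ha
    constructor
    · rintro ⟨b, hb, hle⟩
      refine ⟨?_, ?_, ?_⟩
      · rintro rfl
        rw [hV0 b (g5 b (Or.inl hb))] at hle
        omega
      · rintro rfl
        rw [hV0 b (g5 b (Or.inr hb))] at hle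
        omega
      · rintro rfl
        rw [T.cw, mem_insert, mem_singleton] at hb
        rcases hb with rfl | rfl <;> omega
    · rintro ⟨h1, h2, h3⟩
      obtain ⟨b, hb⟩ := S.ne a ha
      refine ⟨b, hb, ?_⟩
      by_cases h0 : e a = 0
      · rw [h0]
        exact Nat.zero_le _
      · exact (h a h3 h1 h2 h0).2 b hb
  refine ⟨?_, ?_, ?_, ?_⟩
  · rintro z hz ⟨h1, h2⟩
    rw [keyS z hz] at h1
    rw [hgu z hz] at h2
    tauto
  · have h1 : KD c' e Sd = {x, x'} := by
      ext a
      unfold KD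
      rw [mem_filter, mem_insert, mem_singleton]
      constructor
      · rintro ⟨ha, hk⟩
        exact (keyS a ha).1 hk
      · rintro (rfl | rfl)
        · exact ⟨g1, (keyS _ g1).2 (Or.inl rfl)⟩
        · exact ⟨g3, (keyS _ g3).2 (Or.inr rfl)⟩
    rw [h1, card_pair T.ne]
  · have h1 : fr c c' e Sd = {w} := by
      ext a
      unfold fr
      rw [mem_filter, mem_singleton]
      constructor
      · rintro ⟨ha, hk, hg⟩
        rw [keyS a ha] at hk
        rw [hgu a ha] at hg
        by_contra hne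
        tauto
      · rintro rfl
        refine ⟨T.m, ?_, ?_⟩
        · rw [keyS _ T.m]
          tauto
        · rw [hgu _ T.m]
          tauto
    rw [h1, card_singleton]
  · ext v
    unfold KD
    rw [mem_filter, mem_union]
    constructor
    · rintro ⟨hv, hk⟩
      rw [key v (Or.inr hv)] at hk
      have := S.tV v hv
      rcases hk with rfl | rfl | hk | hk
      · omega
      · omega
      · exact Or.inl hk
      · exact Or.inr hk
    · intro hv
      have := g5 v hv
      exact ⟨this, (key v (Or.inr this)).2 (by tauto)⟩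

end abs

section win

variable {P : Type u} [Fintype P] [PartialOrder P] [DecidableEq P] {r i : ℕ} {e : P → ℕ}
  {C : Finset P}

lemma odat_low {a p : ℕ} {B : Finset P} (h : ODat uc dc (lv P i) (lS P i) e a p B) :
    AdmL i e ∧ aL i e = a ∧ pL i e = p ∧ AL i e = B := by
  classical
  refine ⟨?_, ?_, ?_, ?_⟩
  · intro z hz h1
    refine h.adm z (mem_lS.2 hz) ?_
    rw [kd_dc, gu_uc]
    exact h1
  · rw [← h.ka]
    unfold aL
    congr 1
    ext z
    unfold KD
    simp only [mem_filter, mem_lS, mem_univ, true_and, kd_dc]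
  · rw [← h.fp, fr_low]
  · rw [← h.vb, KD_low]

lemma odat_up {a p : ℕ} {B : Finset P} (h : ODat dc uc (lv P i) (uS P i) e a p B) :
    AdmU i e ∧ aU i e = a ∧ pU i e = p ∧ AU i e = B := by
  classical
  refine ⟨?_, ?_, ?_, ?_⟩
  · intro z hz h1
    refine h.adm z (mem_uS.2 hz) ?_
    rw [kd_uc, gu_dc]
    exact h1
  · rw [← h.ka]
    unfold aU
    congr 1
    ext z
    unfold KD
    simp only [mem_filter, mem_uS, mem_univ, true_and, kd_uc]
  · rw [← h.fp, fr_up]
  · rw [← h.vb, KD_up]

lemma coeff0_pow (a b : ℕ) :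
    PowerSeries.coeff 0 (xx ^ a * xi ^ b : A) = (-1 : ℤ) ^ (a + b) := by
  rw [PowerSeries.coeff_zero_eq_constantCoeff, map_mul, map_pow, map_pow,
    ← PowerSeries.coeff_zero_eq_constantCoeff, EtD_x0, EtD_i0, pow_add]

/-- the term of a configuration from its data -/
theorem tC_data (H : Gr P r) (hC : Part i C) (hs : Spt C e) {m : ℕ} (hL : AdmL i e)
    (hU : AdmU i e) (hd : Disjoint (AL i e) (AU i e))
    (hm : (AL i e).card + (AU i e).card = pL i e + pU i e + m) :
    dd ^ ((st i C).card - m) ∣ tC i C e ∧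
      PowerSeries.coeff (st i C).card (dd ^ m * tC i C e : A) =
        (-1) ^ (aL i e + (AL i e).card + (aU i e + pU i e)) := by
  classical
  have h1 : (AL i e).card + (AU i e).card ≤ (st i C).card := by
    rw [← card_union_of_disjoint hd]
    exact card_le_card (union_subset (AL_sub hC hs) (AU_sub H hC hs))
  have h2 : tC i C e = xx ^ (aL i e + (AL i e).card) * xi ^ (aU i e + pU i e) *
      dd ^ ((st i C).card - m) := by
    unfold tC cw
    rw [if_pos hd, if_pos ⟨hL, hU⟩]
    have h3 : (st i C).card - m = (pL i e + pU i e) +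
        ((st i C).card - (AL i e).card - (AU i e).card) := by omega
    rw [h3, pow_add, pow_add dd]
    ring
  refine ⟨by rw [h2]; exact dvd_mul_left _ _, ?_⟩
  have h4 : (dd ^ m * tC i C e : A) = (xx ^ (aL i e + (AL i e).card) * xi ^ (aU i e + pU i e)) *
      dd ^ (st i C).card := by
    rw [h2]
    have h5 : (st i C).card = m + ((st i C).card - m) := by omega
    conv_rhs => rw [h5, pow_add]
    ring
  rw [h4, (EtD_c _ _).1, coeff0_pow]

end win

end Pool.Agent.GaussPoset.Win.SO
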