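import Pool.Agent.W_448so_h15.VA

/-!
SECOND ORDER THEOREM (MP_448cb3_co, proofs row 476): VALUES of the explicit configurations, labels one on a closed
set (helper15; statements of W_448so_h64/SoI).
-/

namespace Pool.Agent.GaussPoset.Win.SO

set_option linter.unusedSectionVars false

open Finset
open Pool.Agent.GaussPoset.Win.I2 (lS uS mem_lS mem_uS)

universe u

variable {P : Type u} [Fintype P] [PartialOrder P] [DecidableEq P] {r i : ℕ} {psi : P → P}
  {e : P → ℕ} {C : Finset P}

/-- label one on `s` -/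
def on (s : Finset P) : P → ℕ := fun y => if y ∈ s then 1 else 0

lemma on_On (s : Finset P) : On (on s) s := fun _ => rfl

/-- `s` has no sites and is closed towards the window -/
structure Cls (i : ℕ) (s : Finset P) : Prop where
  ns : ∀ x ∈ s, lev x ≠ i
  lo : ∀ x ∈ s, i + 1 < lev x → ∀ y, x ⋖ y → y ∈ s
  up : ∀ x ∈ s, lev x + 1 < i → ∀ y, y ⋖ x → y ∈ s

open Classical in
/-- sites above the lower near elements of `s` -/
noncomputable def BL (i : ℕ) (s : Finset P) : Finset P :=
  (lv P i).filter (fun v => ∃ x ∈ s, x ⋖ v)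

open Classical in
/-- sites below the upper near elements of `s` -/
noncomputable def BU (i : ℕ) (s : Finset P) : Finset P :=
  (lv P i).filter (fun v => ∃ x ∈ s, v ⋖ x)

/-- lower near elements of `s` -/
noncomputable def nL (i : ℕ) (s : Finset P) : Finset P := s.filter (fun x => lev x = i + 1)

/-- upper near elements of `s` -/
noncomputable def nU (i : ℕ) (s : Finset P) : Finset P := s.filter (fun x => lev x + 1 = i)

/-- a part of the window `i + 1` is a part of the window `i` -/
lemma part_pred (h : Part (i + 1) C) : Part i C :=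
  ⟨fun h1 h2 => h.up h1 h2, fun h1 h2 h3 => h.dn h1 (by omega) h3⟩

/-- LABELS ONE ON A CLOSED SET.  No element of a side is killed (labels `≤ 1`; an element `z ∉ s` of a side has no
lower cover / upper cover away from the window in `s`), an element of `s` at distance `≥ 2` has a cover towards the
window in `s` (GU / GD), an element outside `s` has label zero (GU / GD, there is a cover); so the free elements are the
near elements of `s`, all others are not free; killed sites: `BL`, `BU`. -/
theorem on_data (H : Gr P r) (hi : 1 ≤ i) (hi2 : i + 1 ≤ r) {s : Finset P} (hs : Cls i s) :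
    AdmL i (on s) ∧ AdmU i (on s) ∧ aL i (on s) = 0 ∧ aU i (on s) = 0 ∧
      pL i (on s) = (nL i s).card ∧ pU i (on s) = (nU i s).card ∧ AL i (on s) = BL i s ∧
      AU i (on s) = BU i s := by
  classical
  have S1 := sde_low H i
  have S2 := sde_up H (show i ≤ r by omega)
  have h1 := odat_low (odat_on S1 (on_On s) (F := nL i s) (B := BL i s) (by
    intro x hx hxS ht y hy
    unfold tL at ht
    exact hs.lo x hx (by omega) y (mem_uc.1 hy)) (by
    intro x
    unfold nL
    rw [mem_filter, mem_lS]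
    constructor
    · rintro ⟨h3, h4⟩
      refine ⟨by omega, h3, fun a ha has => hs.ns a has ?_⟩
      have := lev_uc H ha
      omega
    · rintro ⟨h3, h4, h5⟩
      refine ⟨h4, ?_⟩
      by_contra hne
      obtain ⟨y, hy⟩ := S1.ne x (mem_lS.2 h3)
      exact h5 y hy (hs.lo x h4 (by omega) y (mem_uc.1 hy))) (by
    intro v
    unfold BL
    rw [mem_filter]
    constructor
    · rintro ⟨h3, x, hx, hvx⟩
      exact ⟨h3, fun h4 => hs.ns v h4 (mem_lv.1 h3), x, hx, mem_uc.2 hvx⟩
    · rintro ⟨h3, h4, x, hx, hvx⟩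
      exact ⟨h3, x, hx, mem_uc.1 hvx⟩))
  have h2 := odat_up (odat_on S2 (on_On s) (F := nU i s) (B := BU i s) (by
    intro x hx hxS ht y hy
    unfold tU at ht
    exact hs.up x hx (by omega) y (mem_dc.1 hy)) (by
    intro x
    unfold nU
    rw [mem_filter, mem_uS]
    constructor
    · rintro ⟨h3, h4⟩
      refine ⟨by omega, h3, fun a ha has => hs.ns a has ?_⟩
      have := lev_dc H ha
      omega
    · rintro ⟨h3, h4, h5⟩
      refine ⟨h4, ?_⟩
      by_contra hne
      obtain ⟨y, hy⟩ := S2.ne x (mem_uS.2 h3)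
      exact h5 y hy (hs.up x h4 (by omega) y (mem_dc.1 hy))) (by
    intro v
    unfold BU
    rw [mem_filter]
    constructor
    · rintro ⟨h3, x, hx, hvx⟩
      exact ⟨h3, fun h4 => hs.ns v h4 (mem_lv.1 h3), x, hx, mem_dc.2 hvx⟩
    · rintro ⟨h3, h4, x, hx, hvx⟩
      exact ⟨h3, x, hx, mem_dc.1 hvx⟩))
  exact ⟨h1.1, h2.1, h1.2.1, h2.2.1, h1.2.2.1, h2.2.2.1, h1.2.2.2, h2.2.2.2⟩

lemma on_spt {s : Finset P} (hsC : s ⊆ C) : Spt C (on s) := fun x hx =>
  if_neg (fun h => hx (hsC h))

/-- `m` deficits -/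
theorem on_coeffm (H : Gr P r) (hi : 1 ≤ i) (hi2 : i + 1 ≤ r) (hC : Part (i + 1) C)
    {s : Finset P} (hs : Cls i s) (hsC : s ⊆ C) (hd : Disjoint (BL i s) (BU i s)) {m : ℕ}
    (h2 : (BL i s).card + (BU i s).card = (nL i s).card + (nU i s).card + m) :
    dd ^ ((st i C).card - m) ∣ tC i C (on s) ∧
    PowerSeries.coeff (st i C).card (dd ^ m * tC i C (on s) : A) =
      (-1) ^ ((BL i s).card + (nU i s).card) := by
  obtain ⟨h3, h4, h5, h6, h7, h8, h9, h10⟩ := on_data H hi hi2 hs
  have h := tC_data H (part_pred hC) (on_spt hsC) (m := m) h3 h4 (by rw [h9, h10]; exact hd)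
    (by rw [h9, h10, h7, h8]; exact h2)
  rw [h5, h6, h8, h9, Nat.zero_add, Nat.zero_add] at h
  exact h

/-- the value: sign `(-1) ^ (killed below + free above)` if there are exactly two deficits
(`tC = xx ^ |BL| * xi ^ |nU| * dd ^ (|nL| + |nU| + (b - |BL| - |BU|))`, exponent `b - 2`, `|BL| + |BU| ≤ b`). -/
theorem on_coeff (H : Gr P r) (hi : 1 ≤ i) (hi2 : i + 1 ≤ r) (hC : Part (i + 1) C)
    {s : Finset P} (hs : Cls i s) (hsC : s ⊆ C) (hd : Disjoint (BL i s) (BU i s))
    (h2 : (BL i s).card + (BU i s).card = (nL i s).card + (nU i s).card + 2) :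
    PowerSeries.coeff (st i C).card (dd ^ 2 * tC i C (on s) : A) =
      (-1) ^ ((BL i s).card + (nU i s).card) :=
  (on_coeffm H hi hi2 hC hs hsC hd h2).2

/-- one deficit: first order value -/
theorem on_coeff1 (H : Gr P r) (hi : 1 ≤ i) (hi2 : i + 1 ≤ r) (hC : Part (i + 1) C)
    {s : Finset P} (hs : Cls i s) (hsC : s ⊆ C) (hd : Disjoint (BL i s) (BU i s))
    (h2 : (BL i s).card + (BU i s).card = (nL i s).card + (nU i s).card + 1) :
    PowerSeries.coeff (st i C).card (dd * tC i C (on s) : A) =
      (-1) ^ ((BL i s).card + (nU i s).card) := by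
  have h := (on_coeffm H hi hi2 hC hs hsC hd h2).2
  rwa [pow_one] at h

end Pool.Agent.GaussPoset.Win.SO
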