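import Pool.Agent.W_448so_h15.VB

/-!
SECOND ORDER THEOREM (MP_448cb3_co, proofs row 476): VALUES of the exceptional configurations N1, closed pair, flip
(helper15; statements of W_448so_h64/SoI).
-/

namespace Pool.Agent.GaussPoset.Win.SO

set_option linter.unusedSectionVars false

open Finset
open Pool.Agent.GaussPoset.Win.I2 (kd gu kl kn kr so cc fr KK KD mem_kn mem_kr mem_so kd_iff kl_iff
  lS uS mem_lS mem_uS kd_dc kd_uc gu_uc gu_dc adm_low adm_up KD_low KD_up fr_low fr_up)

universe u

section abs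

variable {P : Type u} [DecidableEq P] {c c' : P → Finset P} {e : P → ℕ} {t : P → ℕ}
  {V Sd : Finset P}

/-- N1: one-sided data -/
lemma odat_n1 (S : Sde c c' t V Sd) {z w x x' s : P} (T : TD c t Sd w x x' s) (hz : z ∈ Sd)
    (hc : c z = {w})
    (he : ∀ y, e y = if y = z ∨ y = w then 2 else if y = x ∨ y = x' then 1 else 0) :
    ODat c c' V Sd e 2 1 (c x ∪ c x') ∧ z ≠ w ∧ z ≠ x ∧ z ≠ x' ∧ w ≠ x ∧ w ≠ x' := by
  obtain ⟨g1, g2, g3, g4, g5⟩ := T.ttx S
  have htz : t z = 3 := by
    have h1 := (S.cin z hz w (by rw [hc]; simp)).2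
    have h2 := T.tw
    omega
  have n1 : z ≠ w := fun h => by have := T.tw; rw [← h] at this; omega
  have n2 : z ≠ x := fun h => by rw [← h] at g2; omega
  have n3 : z ≠ x' := fun h => by rw [← h] at g4; omega
  have n4 : w ≠ x := fun h => by have := T.tw; rw [h] at this; omega
  have n5 : w ≠ x' := fun h => by have := T.tw; rw [h] at this; omega
  have ew : e w = 2 := by rw [he w, if_pos (Or.inr rfl)]
  refine ⟨odat_two S T ew ?_ ?_ ?_, n1, n2, n3, n4, n5⟩
  · rw [he x, if_neg (by rintro (h | h); exacts [n2 h.symm, n4 h.symm]), if_pos (Or.inl rfl)]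
  · rw [he x', if_neg (by rintro (h | h); exacts [n3 h.symm, n5 h.symm]), if_pos (Or.inr rfl)]
  · intro y h1 h2 h3 h4
    have hyz : y = z := by
      by_contra h5
      apply h4
      rw [he y, if_neg (by tauto), if_neg (by tauto)]
    subst hyz
    refine ⟨hz, ?_⟩
    intro b hb
    rw [hc, mem_singleton] at hb
    rw [hb, ew, he y, if_pos (Or.inl rfl)]

/-- closed pair with labels two and one: one-sided data -/
lemma odat_clo (S : Sde c c' t V Sd) {w w' x x' s : P} (T : TD c t Sd w x x' s)
    (T' : TD c t Sd w' x x' s) (hne : w ≠ w')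
    (he : ∀ y, e y = if y = w then 2 else if y = w' ∨ y = x ∨ y = x' then 1 else 0) :
    ODat c c' V Sd e 2 1 (c x ∪ c x') ∧ w ≠ x ∧ w ≠ x' ∧ w' ≠ x ∧ w' ≠ x' := by
  obtain ⟨g1, g2, g3, g4, g5⟩ := T.ttx S
  have n4 : w ≠ x := fun h => by have := T.tw; rw [h] at this; omega
  have n5 : w ≠ x' := fun h => by have := T.tw; rw [h] at this; omega
  have n6 : w' ≠ x := fun h => by have := T'.tw; rw [h] at this; omega
  have n7 : w' ≠ x' := fun h => by have := T'.tw; rw [h] at this; omega
  have ex : e x = 1 := by rw [he x, if_neg (Ne.symm n4), if_pos (by tauto)]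
  have ex' : e x' = 1 := by rw [he x', if_neg (Ne.symm n5), if_pos (by tauto)]
  refine ⟨odat_two S T (by rw [he w, if_pos rfl]) ex ex' ?_, n4, n5, n6, n7⟩
  intro y h1 h2 h3 h4
  have hyz : y = w' := by
    by_contra h5
    apply h4
    rw [he y, if_neg h1, if_neg (by tauto)]
  subst hyz
  refine ⟨T'.m, ?_⟩
  intro b hb
  rw [T'.cw, mem_insert, mem_singleton] at hb
  rw [he y, if_neg h1, if_pos (Or.inl rfl)]
  rcases hb with rfl | rfl
  · rw [ex]
  · rw [ex']

/-- closed pair with labels one and the common site with label one: one-sided data -/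
lemma odat_clo' (S : Sde c c' t V Sd) {w w' x x' s : P} (T : TD c t Sd w x x' s)
    (T' : TD c t Sd w' x x' s) (he : On e {w, w', x, x', s}) :
    ODat c c' V Sd e 0 0 ((c x ∪ c x').erase s) ∧
      ((c x ∪ c x').erase s).card = 2 ∧ w ≠ x ∧ w ≠ x' ∧ w' ≠ x ∧ w' ≠ x' ∧ w ≠ s ∧ w' ≠ s ∧
      x ≠ s ∧ x' ≠ s := by
  obtain ⟨g1, g2, g3, g4, g5⟩ := T.ttx S
  have hsV := g5 s (Or.inl T.sx)
  have hs0 := S.tV s hsV
  have tw := T.tw
  have tw' := T'.tw
  have n4 : w ≠ x := fun h => by rw [h] at tw; omega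
  have n5 : w ≠ x' := fun h => by rw [h] at tw; omega
  have n6 : w' ≠ x := fun h => by rw [h] at tw'; omega
  have n7 : w' ≠ x' := fun h => by rw [h] at tw'; omega
  have n8 : w ≠ s := fun h => by rw [h] at tw; omega
  have n9 : w' ≠ s := fun h => by rw [h] at tw'; omega
  have n10 : x ≠ s := fun h => by rw [h] at g2; omega
  have n11 : x' ≠ s := fun h => by rw [h] at g4; omega
  have hcard : ((c x ∪ c x').erase s).card = 2 := by
    rw [card_erase_of_mem (mem_union_left _ T.sx), T.three]
  refine ⟨?_, hcard, n4, n5, n6, n7, n8, n9, n10, n11⟩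
  have h := odat_on S he (F := ∅) (B := (c x ∪ c x').erase s) ?_ ?_ ?_
  · rwa [card_empty] at h
  · intro y hy hyS hty
    simp only [mem_insert, mem_singleton] at hy
    rcases hy with rfl | rfl | rfl | rfl | rfl
    · rw [T.cw]
      intro b hb
      simp only [mem_insert, mem_singleton] at hb ⊢
      tauto
    · rw [T'.cw]
      intro b hb
      simp only [mem_insert, mem_singleton] at hb ⊢
      tauto
    · omega
    · omega
    · omega
  · intro y
    constructor
    · intro h
      exact absurd h (notMem_empty y)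
    · rintro ⟨h1, h2, h3⟩
      exfalso
      simp only [mem_insert, mem_singleton] at h2
      rcases h2 with rfl | rfl | rfl | rfl | rfl
      · exact h3 x (by rw [T.cw]; simp) (by simp)
      · exact h3 x (by rw [T'.cw]; simp) (by simp)
      · exact h3 s T.sx (by simp)
      · exact h3 s T.sx' (by simp)
      · have := S.tS y h1
        omega
  · intro v
    rw [mem_erase, mem_union]
    constructor
    · rintro ⟨h1, h2⟩
      have hv := g5 v h2
      have hv0 := S.tV v hv
      refine ⟨hv, ?_, ?_⟩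
      · simp only [mem_insert, mem_singleton]
        rintro (rfl | rfl | rfl | rfl | rfl)
        · omega
        · omega
        · omega
        · omega
        · exact h1 rfl
      · rcases h2 with h2 | h2
        · exact ⟨x, by simp, h2⟩
        · exact ⟨x', by simp, h2⟩
    · rintro ⟨h1, h2, y, hy, hvy⟩
      have hv0 := S.tV v h1
      refine ⟨fun h => h2 (by rw [h]; simp), ?_⟩
      simp only [mem_insert, mem_singleton] at hy
      rcases hy with rfl | rfl | rfl | rfl | rfl
      · rw [T.cw, mem_insert, mem_singleton] at hvy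
        rcases hvy with rfl | rfl <;> omega
      · rw [T'.cw, mem_insert, mem_singleton] at hvy
        rcases hvy with rfl | rfl <;> omega
      · exact Or.inl hvy
      · exact Or.inr hvy
      · have h5 := S.cout v (Or.inr h1) y ((S.dual y v).1 hvy)
        have h6 := S.tS y h5
        omega

end abs

section win

variable {P : Type u} [Fintype P] [PartialOrder P] [DecidableEq P] {r i : ℕ} {psi : P → P}
  {e : P → ℕ} {C : Finset P}

/-- the value from the data of the two sides -/
theorem of_dat (H : Gr P r) (hC : Part (i + 1) C) (hs : Spt C e) {a1 p1 a2 p2 : ℕ}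
    {B1 B2 : Finset P} (h1 : ODat uc dc (lv P i) (lS P i) e a1 p1 B1)
    (h2 : ODat dc uc (lv P i) (uS P i) e a2 p2 B2) (hd : Disjoint B1 B2) {m : ℕ}
    (hm : B1.card + B2.card = p1 + p2 + m) :
    AdmL i e ∧ AdmU i e ∧ Disjoint (AL i e) (AU i e) ∧
      dd ^ ((st i C).card - m) ∣ tC i C e ∧
      PowerSeries.coeff (st i C).card (dd ^ m * tC i C e : A) =
        (-1) ^ (a1 + B1.card + (a2 + p2)) := by
  obtain ⟨q1, q2, q3, q4⟩ := odat_low h1
  obtain ⟨q5, q6, q7, q8⟩ := odat_up h2
  have hd' : Disjoint (AL i e) (AU i e) := by rw [q4, q8]; exact hd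
  have h := tC_data H (part_pred hC) hs (m := m) q1 q5 hd' (by rw [q4, q8, q3, q7]; exact hm)
  rw [q2, q6, q7, q4] at h
  exact ⟨q1, q5, hd', h.1, h.2⟩

lemma sum_ite1 (a : P) (k : ℕ) : ∑ y : P, (if y = a then k else 0) = k := by
  rw [sum_ite_eq' univ a, if_pos (mem_univ _)]

lemma sum_n1 {z w x x' : P} (h1 : z ≠ w) (h2 : z ≠ x) (h3 : z ≠ x') (h4 : w ≠ x) (h5 : w ≠ x')
    (h6 : x ≠ x')
    (he : ∀ y, e y = if y = z ∨ y = w then 2 else if y = x ∨ y = x' then 1 else 0) :
    ∑ y, e y = 6 := by
  have h : ∀ y, e y = (if y = z then 2 else 0) + (if y = w then 2 else 0) +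
      (if y = x then 1 else 0) + (if y = x' then 1 else 0) := by
    intro y
    rw [he y]
    by_cases k1 : y = z
    · subst k1
      simp [h1, h2, h3]
    · by_cases k2 : y = w
      · subst k2
        simp [h1.symm, h4, h5]
      · by_cases k3 : y = x
        · subst k3
          simp [h2.symm, h4.symm, h6]
        · by_cases k4 : y = x'
          · subst k4
            simp [h3.symm, h5.symm, h6.symm]
          · simp [k1, k2, k3, k4]
  rw [sum_congr rfl (fun y _ => h y), sum_add_distrib, sum_add_distrib, sum_add_distrib,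
    sum_ite1, sum_ite1, sum_ite1, sum_ite1]

lemma sum_clo {w w' x x' : P} (h1 : w ≠ w') (h2 : w ≠ x) (h3 : w ≠ x') (h4 : w' ≠ x)
    (h5 : w' ≠ x') (h6 : x ≠ x')
    (he : ∀ y, e y = if y = w then 2 else if y = w' ∨ y = x ∨ y = x' then 1 else 0) :
    ∑ y, e y = 5 := by
  have h : ∀ y, e y = (if y = w then 2 else 0) + (if y = w' then 1 else 0) +
      (if y = x then 1 else 0) + (if y = x' then 1 else 0) := by
    intro y
    rw [he y]
    by_cases k1 : y = w
    · subst k1
      simp [h1, h2, h3]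
    · by_cases k2 : y = w'
      · subst k2
        simp [h1.symm, h4, h5]
      · by_cases k3 : y = x
        · subst k3
          simp [h2.symm, h4.symm, h6]
        · by_cases k4 : y = x'
          · subst k4
            simp [h3.symm, h5.symm, h6.symm]
          · simp [k1, k2, k3, k4]
  rw [sum_congr rfl (fun y _ => h y), sum_add_distrib, sum_add_distrib, sum_add_distrib,
    sum_ite1, sum_ite1, sum_ite1, sum_ite1]

lemma sum_On {s : Finset P} (he : On e s) : ∑ y, e y = s.card := by
  rw [sum_congr rfl (fun y _ => he y), sum_ite_mem, univ_inter, card_eq_sum_ones]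

lemma card5 {a b c d f : P} (h1 : a ≠ b) (h2 : a ≠ c) (h3 : a ≠ d) (h4 : a ≠ f) (h5 : b ≠ c)
    (h6 : b ≠ d) (h7 : b ≠ f) (h8 : c ≠ d) (h9 : c ≠ f) (h10 : d ≠ f) :
    ({a, b, c, d, f} : Finset P).card = 5 := by
  rw [card_insert_of_notMem (by simp [h1, h2, h3, h4]),
    card_insert_of_notMem (by simp [h5, h6, h7]), card_insert_of_notMem (by simp [h8, h9]),
    card_pair h10]

/-- N1 below the window: `z = w = 2`, `x = x' = 1`: `x, x'` killed (aL = 2), `w` free (pL = 1), three sites killed:
`xx ^ 5 * dd ^ (b - 2)`, value `-1`. -/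
theorem n1_coeff (H : Gr P r) (hi : 1 ≤ i) (hi2 : i + 1 ≤ r) (hC : Part (i + 1) C)
    (hs : Spt C e) (h : N1 uc (tL (P := P) i) (lS P i) e) :
    AdmL i e ∧ AdmU i e ∧ Disjoint (AL i e) (AU i e) ∧ ∑ x, e x = 6 ∧
      dd ^ ((st i C).card - 2) ∣ tC i C e ∧
      PowerSeries.coeff (st i C).card (dd ^ 2 * tC i C e : A) = -1 := by
  obtain ⟨z, w, x, x', s, T, hz, hc, he⟩ := h
  have S1 := sde_low H i
  have S2 := sde_up H (show i ≤ r by omega)
  obtain ⟨h1, n1, n2, n3, n4, n5⟩ := odat_n1 S1 T hz hc he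
  obtain ⟨g1, g2, g3, g4, g5⟩ := T.ttx S1
  have h2 : ODat dc uc (lv P i) (uS P i) e 0 0 ∅ := by
    apply odat_zero S2
    intro y hy
    have k1 := T.m
    rw [mem_lS] at hz g1 g3 k1
    rw [mem_uS] at hy
    rw [he y, if_neg, if_neg]
    · rintro (rfl | rfl) <;> omega
    · rintro (rfl | rfl) <;> omega
  obtain ⟨q1, q2, q3, q4, q5⟩ := of_dat H hC hs h1 h2 (disjoint_empty_right _) (m := 2)
    (by rw [T.three, card_empty])
  refine ⟨q1, q2, q3, sum_n1 n1 n2 n3 n4 n5 T.ne he, q4, ?_⟩
  rw [q5, T.three]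
  norm_num

/-- N1 above the window: `xi ^ 3 * dd ^ (b - 2)`, value `-1`. -/
theorem n1U_coeff (H : Gr P r) (hi : 1 ≤ i) (hi2 : i + 1 ≤ r) (hC : Part (i + 1) C)
    (hs : Spt C e) (h : N1 dc (tU (P := P) i) (uS P i) e) :
    AdmL i e ∧ AdmU i e ∧ Disjoint (AL i e) (AU i e) ∧ ∑ x, e x = 6 ∧
      dd ^ ((st i C).card - 2) ∣ tC i C e ∧
      PowerSeries.coeff (st i C).card (dd ^ 2 * tC i C e : A) = -1 := by
  obtain ⟨z, w, x, x', s, T, hz, hc, he⟩ := h
  have S1 := sde_low H i
  have S2 := sde_up H (show i ≤ r by omega)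
  obtain ⟨h2, n1, n2, n3, n4, n5⟩ := odat_n1 S2 T hz hc he
  obtain ⟨g1, g2, g3, g4, g5⟩ := T.ttx S2
  have h1 : ODat uc dc (lv P i) (lS P i) e 0 0 ∅ := by
    apply odat_zero S1
    intro y hy
    have k1 := T.m
    rw [mem_uS] at hz g1 g3 k1
    rw [mem_lS] at hy
    rw [he y, if_neg, if_neg]
    · rintro (rfl | rfl) <;> omega
    · rintro (rfl | rfl) <;> omega
  obtain ⟨q1, q2, q3, q4, q5⟩ := of_dat H hC hs h1 h2 (disjoint_empty_left _) (m := 2)
    (by rw [T.three, card_empty])
  refine ⟨q1, q2, q3, sum_n1 n1 n2 n3 n4 n5 T.ne he, q4, ?_⟩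
  rw [q5, card_empty]
  norm_num

/-- closed pair, labels `(w, w', x, x') = (2, 1, 1, 1)`: `x, x'` killed, `w` free, three sites:
`xx ^ 5 * dd ^ (b - 2)`, value `-1`. -/
theorem clo_coeff (H : Gr P r) (hi : 1 ≤ i) (hi2 : i + 1 ≤ r) (hC : Part (i + 1) C)
    (hs : Spt C e) {w w' x x' s : P} (h : TD uc (tL (P := P) i) (lS P i) w x x' s)
    (h' : TD uc (tL (P := P) i) (lS P i) w' x x' s) (hne : w ≠ w')
    (he : ∀ y, e y = if y = w then 2 else if y = w' ∨ y = x ∨ y = x' then 1 else 0) :
    AdmL i e ∧ AdmU i e ∧ Disjoint (AL i e) (AU i e) ∧ ∑ x, e x = 5 ∧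
      dd ^ ((st i C).card - 2) ∣ tC i C e ∧
      PowerSeries.coeff (st i C).card (dd ^ 2 * tC i C e : A) = -1 := by
  have S1 := sde_low H i
  have S2 := sde_up H (show i ≤ r by omega)
  obtain ⟨h1, n4, n5, n6, n7⟩ := odat_clo S1 h h' hne he
  obtain ⟨g1, g2, g3, g4, g5⟩ := h.ttx S1
  have h2 : ODat dc uc (lv P i) (uS P i) e 0 0 ∅ := by
    apply odat_zero S2
    intro y hy
    have k1 := h.m
    have k2 := h'.m
    rw [mem_lS] at g1 g3 k1 k2
    rw [mem_uS] at hy
    rw [he y, if_neg, if_neg]
    · rintro (rfl | rfl | rfl) <;> omega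
    · rintro rfl
      omega
  obtain ⟨q1, q2, q3, q4, q5⟩ := of_dat H hC hs h1 h2 (disjoint_empty_right _) (m := 2)
    (by rw [h.three, card_empty])
  refine ⟨q1, q2, q3, sum_clo hne n4 n5 n6 n7 h.ne he, q4, ?_⟩
  rw [q5, h.three]
  norm_num

/-- closed pair, all labels one and the common site `s` with label one: `x, x'` are not free (`GU`), they kill their
other sites: `xx ^ 2 * dd ^ (b - 2)`, value `+1`. -/
theorem clo_coeff' (H : Gr P r) (hi : 1 ≤ i) (hi2 : i + 1 ≤ r) (hC : Part (i + 1) C)
    (hs : Spt C e) {w w' x x' s : P} (h : TD uc (tL (P := P) i) (lS P i) w x x' s)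
    (h' : TD uc (tL (P := P) i) (lS P i) w' x x' s) (hne : w ≠ w')
    (he : On e {w, w', x, x', s}) :
    AdmL i e ∧ AdmU i e ∧ Disjoint (AL i e) (AU i e) ∧ ∑ x, e x = 5 ∧
      dd ^ ((st i C).card - 2) ∣ tC i C e ∧
      PowerSeries.coeff (st i C).card (dd ^ 2 * tC i C e : A) = 1 := by
  have S1 := sde_low H i
  have S2 := sde_up H (show i ≤ r by omega)
  obtain ⟨h1, hc, n4, n5, n6, n7, n8, n9, n10, n11⟩ := odat_clo' S1 h h' he
  obtain ⟨g1, g2, g3, g4, g5⟩ := h.ttx S1
  have hsl := mem_lv.1 (g5 s (Or.inl h.sx))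
  have h2 : ODat dc uc (lv P i) (uS P i) e 0 0 ∅ := by
    apply odat_zero S2
    intro y hy
    have k1 := h.m
    have k2 := h'.m
    rw [mem_lS] at g1 g3 k1 k2
    rw [mem_uS] at hy
    rw [he y, if_neg]
    simp only [mem_insert, mem_singleton]
    rintro (rfl | rfl | rfl | rfl | rfl) <;> omega
  obtain ⟨q1, q2, q3, q4, q5⟩ := of_dat H hC hs h1 h2 (disjoint_empty_right _) (m := 2)
    (by rw [hc, card_empty])
  refine ⟨q1, q2, q3, ?_, q4, ?_⟩
  · rw [sum_On he]
    exact card5 hne n4 n5 n8 n6 n7 n9 h.ne n10 n11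
  · rw [q5, hc]
    norm_num

/-- flip: `p` below `y`, `p'` above `u`, common site `s`, all five labels one: `y`, `u` are not free, each kills its
other site: `xx * dd ^ (b - 2)`, value `-1`. -/
theorem flp_coeff (H : Gr P r) (hi : 1 ≤ i) (hi2 : i + 1 ≤ r) (hC : Part (i + 1) C)
    (hs : Spt C e) {p y p' u s : P} (h : Pen uc (tL (P := P) i) (lS P i) p y)
    (h' : Pen dc (tU (P := P) i) (uS P i) p' u) (hys : uc y ∩ dc u = {s})
    (he : On e {p, y, s, u, p'}) :
    AdmL i e ∧ AdmU i e ∧ Disjoint (AL i e) (AU i e) ∧ ∑ x, e x = 5 ∧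
      dd ^ ((st i C).card - 2) ∣ tC i C e ∧
      PowerSeries.coeff (st i C).card (dd ^ 2 * tC i C e : A) = -1 := by
  have S1 := sde_low H i
  have S2 := sde_up H (show i ≤ r by omega)
  obtain ⟨-, l1, l2, c1, c2⟩ := pen_low H h
  obtain ⟨-, l3, l4, c3, c4⟩ := pen_up H h'
  have hs0 : s ∈ uc y ∩ dc u := by rw [hys]; simp
  rw [mem_inter] at hs0
  obtain ⟨s1, s2⟩ := hs0
  have l5 := lev_uc H s1
  have h1 : ODat uc dc (lv P i) (lS P i) e 0 0 ((uc y).erase s) := by
    have h := odat_on S1 he (F := ∅) (B := (uc y).erase s) ?_ ?_ ?_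
    · rwa [card_empty] at h
    · intro x hx hxS htx
      unfold tL at htx
      simp only [mem_insert, mem_singleton] at hx
      rcases hx with rfl | rfl | rfl | rfl | rfl
      · rw [c1]
        intro b hb
        simp only [mem_insert, mem_singleton] at hb ⊢
        tauto
      · omega
      · omega
      · omega
      · omega
    · intro x
      constructor
      · intro h
        exact absurd h (notMem_empty x)
      · rintro ⟨h1, h2, h3⟩
        exfalso
        rw [mem_lS] at h1
        simp only [mem_insert, mem_singleton] at h2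
        rcases h2 with rfl | rfl | rfl | rfl | rfl
        · exact h3 y (by rw [c1]; simp) (by simp)
        · exact h3 s s1 (by simp)
        · omega
        · omega
        · omega
    · intro v
      rw [mem_erase]
      constructor
      · rintro ⟨h1, h2⟩
        have h3 := lev_uc H h2
        refine ⟨mem_lv.2 (by omega), ?_, y, by simp, h2⟩
        simp only [mem_insert, mem_singleton]
        rintro (rfl | rfl | rfl | rfl | rfl)
        · omega
        · omega
        · exact h1 rfl
        · omega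
        · omega
      · rintro ⟨h1, h2, x, hx, hvx⟩
        have h3 := lev_uc H hvx
        rw [mem_lv] at h1
        refine ⟨fun h => h2 (by rw [h]; simp), ?_⟩
        simp only [mem_insert, mem_singleton] at hx
        rcases hx with rfl | rfl | rfl | rfl | rfl
        · omega
        · exact hvx
        · omega
        · omega
        · omega
  have h2 : ODat dc uc (lv P i) (uS P i) e 0 0 ((dc u).erase s) := by
    have h := odat_on S2 he (F := ∅) (B := (dc u).erase s) ?_ ?_ ?_
    · rwa [card_empty] at h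
    · intro x hx hxS htx
      unfold tU at htx
      simp only [mem_insert, mem_singleton] at hx
      rcases hx with rfl | rfl | rfl | rfl | rfl
      · omega
      · omega
      · omega
      · omega
      · rw [c3]
        intro b hb
        simp only [mem_insert, mem_singleton] at hb ⊢
        tauto
    · intro x
      constructor
      · intro h
        exact absurd h (notMem_empty x)
      · rintro ⟨h1, h2, h3⟩
        exfalso
        rw [mem_uS] at h1
        simp only [mem_insert, mem_singleton] at h2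
        rcases h2 with rfl | rfl | rfl | rfl | rfl
        · omega
        · omega
        · omega
        · exact h3 s s2 (by simp)
        · exact h3 u (by rw [c3]; simp) (by simp)
    · intro v
      rw [mem_erase]
      constructor
      · rintro ⟨h1, h2⟩
        have h3 := lev_dc H h2
        refine ⟨mem_lv.2 (by omega), ?_, u, by simp, h2⟩
        simp only [mem_insert, mem_singleton]
        rintro (rfl | rfl | rfl | rfl | rfl)
        · omega
        · omega
        · exact h1 rfl
        · omega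
        · omega
      · rintro ⟨h1, h2, x, hx, hvx⟩
        have h3 := lev_dc H hvx
        rw [mem_lv] at h1
        refine ⟨fun h => h2 (by rw [h]; simp), ?_⟩
        simp only [mem_insert, mem_singleton] at hx
        rcases hx with rfl | rfl | rfl | rfl | rfl
        · omega
        · omega
        · omega
        · exact hvx
        · omega
  have hdis : Disjoint ((uc y).erase s) ((dc u).erase s) := by
    rw [disjoint_left]
    intro v hv hv'
    rw [mem_erase] at hv hv'
    have : v ∈ uc y ∩ dc u := mem_inter.2 ⟨hv.2, hv'.2⟩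
    rw [hys, mem_singleton] at this
    exact hv.1 this
  have k1 : ((uc y).erase s).card = 1 := by rw [card_erase_of_mem s1]; omega
  have k2 : ((dc u).erase s).card = 1 := by rw [card_erase_of_mem s2]; omega
  obtain ⟨q1, q2, q3, q4, q5⟩ := of_dat H hC hs h1 h2 hdis (m := 2) (by rw [k1, k2])
  refine ⟨q1, q2, q3, ?_, q4, ?_⟩
  · rw [sum_On he]
    apply card5 <;> (rintro rfl; omega)
  · rw [q5, k1]
    norm_num

end win

end Pool.Agent.GaussPoset.Win.SO
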